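import Mathlib

/-!
Haxell's theorem on independent transversals, in the form in which the dominating set consists of
edges: if for every nonempty set `R` of classes no `|R| - 1` edges dominate the classes in `R`, then
there is an independent transversal.
-/

namespace Pool.Agent.Helper48.HX

variable {V I : Type*} [DecidableEq V] [DecidableEq I]

section State

variable (E : V → V → Prop) [DecidableRel E] (cls : V → I) (a : I) (S : Finset I)

/-- The classes whose representative is adjacent to `x`. -/
def W (m : I → V) (x : V) : Finset I := S.filter fun i => E x (m i)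

/-- The classes used by the sequence `xs`. -/
def SS (m : I → V) : List V → Finset I
  | [] => {a}
  | x :: xs => SS m xs ∪ W E S m x

/-- The edges used by the sequence `xs`. -/
def PP (m : I → V) : List V → Finset (V × V)
  | [] => ∅
  | x :: xs => PP m xs ∪ (W E S m x).image fun i => (x, m i)

/-- `x` is a new undominated vertex. -/
def Fresh (m : I → V) (xs : List V) (x : V) : Prop :=
  cls x ∈ SS E a S m xs ∧ (∀ y ∈ xs, ¬ E y x) ∧ ∀ y ∈ xs, ∀ i ∈ W E S m y, ¬ E (m i) x

/-- Valid sequences. -/
def Valid (m : I → V) : List V → Prop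
  | [] => True
  | x :: xs => Valid m xs ∧ Fresh E cls a S m xs x ∧ (W E S m x).Nonempty

/-- `m` is an independent transversal of the classes in `S`. -/
def IsT (m : I → V) : Prop :=
  (∀ i ∈ S, cls (m i) = i) ∧ ∀ i ∈ S, ∀ j ∈ S, ¬ E (m i) (m j)

/-- The two transversals look the same from the sequence `xs`. -/
def Agree (m m' : I → V) (xs : List V) : Prop :=
  ∀ y ∈ xs, W E S m' y = W E S m y ∧ ∀ i ∈ W E S m y, m' i = m i

/-- A transversal can be improved at some place of the sequence. -/
def Imp (m : I → V) (xs : List V) : Prop :=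
  ∃ (l : List V) (x : V) (tail : List V), xs = l ++ x :: tail ∧ ∃ m' : I → V, IsT E cls S m' ∧
    Valid E cls a S m' tail ∧ Fresh E cls a S m' tail x ∧ Agree E S m m' tail ∧
    (W E S m' x).card < (W E S m x).card

variable {E cls a S}

theorem agree_refl (m : I → V) (xs : List V) : Agree E S m m xs := fun _ _ => ⟨rfl, fun _ _ => rfl⟩

theorem Agree.trans {m m' m'' : I → V} {xs : List V} (h : Agree E S m m' xs)
    (h' : Agree E S m' m'' xs) : Agree E S m m'' xs := by
  intro y hy
  obtain ⟨h1, h2⟩ := h y hy
  obtain ⟨h3, h4⟩ := h' y hy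
  refine ⟨h3.trans h1, fun i hi => ?_⟩
  rw [h4 i (h1 ▸ hi), h2 i hi]

theorem Agree.mono {m m' : I → V} {xs ys : List V} (h : Agree E S m m' xs)
    (hys : ∀ y ∈ ys, y ∈ xs) : Agree E S m m' ys := fun y hy => h y (hys y hy)

theorem Agree.ss {m m' : I → V} {xs : List V} (h : Agree E S m m' xs) :
    SS E a S m' xs = SS E a S m xs := by
  induction xs with
  | nil => rfl
  | cons x xs ih =>
    rw [SS, SS, ih (h.mono fun y hy => List.mem_cons_of_mem _ hy), (h x List.mem_cons_self).1]

theorem Agree.fresh {m m' : I → V} {xs : List V} (h : Agree E S m m' xs) {x : V}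
    (hx : Fresh E cls a S m xs x) : Fresh E cls a S m' xs x := by
  refine ⟨h.ss ▸ hx.1, hx.2.1, fun y hy i hi => ?_⟩
  obtain ⟨h1, h2⟩ := h y hy
  rw [h1] at hi
  rw [h2 i hi]
  exact hx.2.2 y hy i hi

theorem Agree.valid {m m' : I → V} {xs : List V} (h : Agree E S m m' xs)
    (hv : Valid E cls a S m xs) : Valid E cls a S m' xs := by
  induction xs with
  | nil => trivial
  | cons x xs ih =>
    obtain ⟨h1, h2, h3⟩ := hv
    have h4 : Agree E S m m' xs := h.mono fun y hy => List.mem_cons_of_mem _ hy
    refine ⟨ih h4 h1, h4.fresh h2, ?_⟩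
    rw [(h x List.mem_cons_self).1]
    exact h3

theorem Imp.of_agree {m m' : I → V} {xs : List V} (h : Agree E S m m' xs)
    (h' : Imp E cls a S m' xs) : Imp E cls a S m xs := by
  obtain ⟨l, x, tail, rfl, m'', h1, h2, h3, h4, h5⟩ := h'
  have hx : x ∈ l ++ x :: tail := by simp
  refine ⟨l, x, tail, rfl, m'', h1, h2, h3, ?_, ?_⟩
  · exact (h.mono fun y hy => by simp [hy]).trans h4
  · rw [← (h x hx).1]
    exact h5

theorem valid_append {m : I → V} {l ys : List V} (h : Valid E cls a S m (l ++ ys)) :
    Valid E cls a S m ys := by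
  induction l with
  | nil => exact h
  | cons x l ih => exact ih h.1

theorem mem_ss {m : I → V} {xs : List V} {c : I} (h : c ∈ SS E a S m xs) :
    c = a ∨ ∃ y ∈ xs, c ∈ W E S m y := by
  induction xs with
  | nil =>
    left
    simpa [SS] using h
  | cons x xs ih =>
    rw [SS, Finset.mem_union] at h
    rcases h with h | h
    · rcases ih h with h | ⟨y, hy, hc⟩
      · exact Or.inl h
      · exact Or.inr ⟨y, List.mem_cons_of_mem _ hy, hc⟩
    · exact Or.inr ⟨x, List.mem_cons_self, h⟩

theorem a_mem_ss (m : I → V) (xs : List V) : a ∈ SS E a S m xs := by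
  induction xs with
  | nil => simp [SS]
  | cons x xs ih => exact Finset.mem_union_left _ ih

theorem w_sub_ss {m : I → V} {xs : List V} {y : V} (hy : y ∈ xs) :
    W E S m y ⊆ SS E a S m xs := by
  induction xs with
  | nil => simp at hy
  | cons x xs ih =>
    rcases List.mem_cons.1 hy with rfl | hy
    · exact Finset.subset_union_right
    · exact (ih hy).trans Finset.subset_union_left

theorem ss_sub (m : I → V) (xs : List V) : SS E a S m xs ⊆ insert a S := by
  intro c hc
  rcases mem_ss hc with rfl | ⟨y, _, hc⟩
  · exact Finset.mem_insert_self _ _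
  · exact Finset.mem_insert_of_mem (Finset.mem_filter.1 hc).1

theorem disj (hsymm : ∀ x y, E x y → E y x) (ha : a ∉ S) {m : I → V} {xs : List V} {x : V}
    (hx : Fresh E cls a S m xs x) : Disjoint (SS E a S m xs) (W E S m x) := by
  rw [Finset.disjoint_left]
  intro c hc hcx
  rcases mem_ss hc with rfl | ⟨y, hy, hcy⟩
  · exact ha (Finset.mem_filter.1 hcx).1
  · exact hx.2.2 y hy c hcy (hsymm _ _ (Finset.mem_filter.1 hcx).2)

theorem card_pp (hsymm : ∀ x y, E x y → E y x) (ha : a ∉ S) {m : I → V} {xs : List V}
    (h : Valid E cls a S m xs) : (PP E S m xs).card < (SS E a S m xs).card := by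
  induction xs with
  | nil => simp [PP, SS]
  | cons x xs ih =>
    rw [PP, SS, Finset.card_union_of_disjoint (disj hsymm ha h.2.1)]
    have h1 := ih h.1
    have h2 : ((W E S m x).image fun i => (x, m i)).card ≤ (W E S m x).card := Finset.card_image_le
    have h3 := Finset.card_union_le (PP E S m xs) ((W E S m x).image fun i => (x, m i))
    omega

theorem mem_pp {m : I → V} {xs : List V} {p : V × V} (h : p ∈ PP E S m xs) :
    ∃ y ∈ xs, ∃ i ∈ W E S m y, p = (y, m i) := by
  induction xs with
  | nil => simp [PP] at h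
  | cons x xs ih =>
    rw [PP, Finset.mem_union, Finset.mem_image] at h
    rcases h with h | ⟨i, hi, rfl⟩
    · obtain ⟨y, hy, h⟩ := ih h
      exact ⟨y, List.mem_cons_of_mem _ hy, h⟩
    · exact ⟨x, List.mem_cons_self, i, hi, rfl⟩

theorem pp_mem {m : I → V} {xs : List V} {y : V} (hy : y ∈ xs) {i : I} (hi : i ∈ W E S m y) :
    (y, m i) ∈ PP E S m xs := by
  induction xs with
  | nil => simp at hy
  | cons x xs ih =>
    rw [PP, Finset.mem_union, Finset.mem_image]
    rcases List.mem_cons.1 hy with rfl | hy
    · exact Or.inr ⟨i, hi, rfl⟩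
    · exact Or.inl (ih hy)

theorem valid_nonempty {m : I → V} {xs : List V} (h : Valid E cls a S m xs) {y : V} (hy : y ∈ xs) :
    (W E S m y).Nonempty := by
  induction xs with
  | nil => simp at hy
  | cons x xs ih =>
    rcases List.mem_cons.1 hy with rfl | hy
    · exact h.2.2
    · exact ih h.1 hy

/-- The replacement step. -/
theorem replace (hsymm : ∀ x y, E x y → E y x) (hirr : ∀ x, ¬ E x x) {m : I → V} {xs : List V}
    {x : V} (hm : IsT E cls S m) (hv : Valid E cls a S m xs) (hx : Fresh E cls a S m xs x)
    (hW : W E S m x = ∅) :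
    (∃ m', IsT E cls (insert a S) m') ∨ Imp E cls a S m xs := by
  have hno : ∀ i ∈ S, ¬ E x (m i) := fun i hi hE => by
    have : i ∈ W E S m x := Finset.mem_filter.2 ⟨hi, hE⟩
    rw [hW] at this
    simp at this
  rcases mem_ss hx.1 with hc | ⟨y, hy, hcy⟩
  · left
    refine ⟨Function.update m a x, fun i hi => ?_, fun i hi j hj => ?_⟩
    · by_cases h : i = a
      · subst h
        rw [Function.update_self, hc]
      · rw [Function.update_of_ne h]
        exact hm.1 i (Finset.mem_of_mem_insert_of_ne hi h)
    · by_cases h : i = a <;> by_cases h' : j = a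
      · rw [h, h', Function.update_self]
        exact hirr x
      · rw [h, Function.update_self, Function.update_of_ne h']
        exact hno j (Finset.mem_of_mem_insert_of_ne hj h')
      · rw [h', Function.update_self, Function.update_of_ne h]
        exact fun hE => hno i (Finset.mem_of_mem_insert_of_ne hi h) (hsymm _ _ hE)
      · rw [Function.update_of_ne h, Function.update_of_ne h']
        exact hm.2 i (Finset.mem_of_mem_insert_of_ne hi h) j (Finset.mem_of_mem_insert_of_ne hj h')
  · right
    obtain ⟨l, tail, rfl⟩ := List.append_of_mem hy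
    set c := cls x with hcdef
    have hcS : c ∈ S := (Finset.mem_filter.1 hcy).1
    have hv' : Valid E cls a S m (y :: tail) := valid_append hv
    -- the new transversal
    have hw : ∀ z i, i ≠ c → (i ∈ W E S (Function.update m c x) z ↔ i ∈ W E S m z) := by
      intro z i hi
      rw [W, W, Finset.mem_filter, Finset.mem_filter, Function.update_of_ne hi]
    have hcz : ∀ z ∈ l ++ y :: tail, c ∉ W E S (Function.update m c x) z := by
      intro z hz hc
      have h1 := (Finset.mem_filter.1 hc).2
      rw [Function.update_self] at h1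
      exact hx.2.1 z hz h1
    have hag : Agree E S m (Function.update m c x) tail := by
      intro z hz
      have hzc : c ∉ W E S m z := fun h =>
        hv'.2.1.2.2 z hz c h (hsymm _ _ (Finset.mem_filter.1 hcy).2)
      refine ⟨?_, fun i hi => ?_⟩
      · ext i
        by_cases hi : i = c
        · subst hi
          exact ⟨fun h => absurd h (hcz z (by simp [hz])), fun h => absurd h hzc⟩
        · exact hw z i hi
      · have : i ≠ c := fun h => hzc (h ▸ hi)
        rw [Function.update_of_ne this]
    refine ⟨l, y, tail, rfl, Function.update m c x, ⟨fun i hi => ?_, fun i hi j hj => ?_⟩,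
      hag.valid hv'.1, hag.fresh hv'.2.1, hag, ?_⟩
    · by_cases h : i = c
      · rw [h, Function.update_self]
      · rw [Function.update_of_ne h]
        exact hm.1 i hi
    · by_cases h : i = c <;> by_cases h' : j = c
      · rw [h, h', Function.update_self]
        exact hirr x
      · rw [h, Function.update_self, Function.update_of_ne h']
        exact hno j hj
      · rw [h', Function.update_self, Function.update_of_ne h]
        exact fun hE => hno i hi (hsymm _ _ hE)
      · rw [Function.update_of_ne h, Function.update_of_ne h']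
        exact hm.2 i hi j hj
    · apply Finset.card_lt_card
      rw [Finset.ssubset_iff_of_subset]
      · exact ⟨c, hcy, hcz y (by simp)⟩
      · intro i hi
        have hic : i ≠ c := fun h => hcz y (by simp) (h ▸ hi)
        exact (hw y i hic).1 hi

/-- The main induction. -/
theorem main_ind (hsymm : ∀ x y, E x y → E y x) (hirr : ∀ x, ¬ E x x) (ha : a ∉ S)
    (H : ∀ R ⊆ insert a S, R.Nonempty → ∀ P : Finset (V × V), (∀ p ∈ P, E p.1 p.2) →
      P.card < R.card → ∃ x, cls x ∈ R ∧ ∀ p ∈ P, ¬ E p.1 x ∧ ¬ E p.2 x) (n : ℕ) :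
    ∀ (m : I → V) (xs : List V), IsT E cls S m → Valid E cls a S m xs →
      (insert a S \ SS E a S m xs).card ≤ n →
      (∃ m', IsT E cls (insert a S) m') ∨ Imp E cls a S m xs := by
  induction n using Nat.strong_induction_on with
  | _ n ih =>
  intro m xs hm hv hn
  obtain ⟨x, hx1, hx2⟩ := H (SS E a S m xs) (ss_sub m xs) ⟨a, a_mem_ss m xs⟩ (PP E S m xs)
    (fun p hp => by
      obtain ⟨y, _, i, hi, rfl⟩ := mem_pp hp
      exact (Finset.mem_filter.1 hi).2) (card_pp hsymm ha hv)
  have hx : Fresh E cls a S m xs x := by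
    refine ⟨hx1, fun y hy => ?_, fun y hy i hi => ?_⟩
    · obtain ⟨i, hi⟩ := valid_nonempty hv hy
      exact (hx2 _ (pp_mem hy hi)).1
    · exact (hx2 _ (pp_mem hy hi)).2
  -- inner induction
  have inner : ∀ w : ℕ, ∀ m' : I → V, IsT E cls S m' → Agree E S m m' xs →
      (W E S m' x).card ≤ w →
      (∃ m', IsT E cls (insert a S) m') ∨ Imp E cls a S m xs := by
    intro w
    induction w using Nat.strong_induction_on with
    | _ w ihw =>
    intro m' hm' hag hw
    have hv' := hag.valid hv
    have hx' := hag.fresh hx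
    rcases (W E S m' x).eq_empty_or_nonempty with h0 | h0
    · rcases replace hsymm hirr hm' hv' hx' h0 with h | h
      · exact Or.inl h
      · exact Or.inr (h.of_agree hag)
    · have hv2 : Valid E cls a S m' (x :: xs) := ⟨hv', hx', h0⟩
      have hlt : (insert a S \ SS E a S m' (x :: xs)).card < n := by
        refine lt_of_lt_of_le ?_ hn
        apply Finset.card_lt_card
        rw [SS, hag.ss]
        obtain ⟨i, hi⟩ := h0
        have hd := Finset.disjoint_left.1 (disj hsymm ha hx')
        rw [Finset.ssubset_iff_of_subset (Finset.sdiff_subset_sdiff (Finset.Subset.refl _)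
          Finset.subset_union_left)]
        refine ⟨i, ?_, ?_⟩
        · rw [Finset.mem_sdiff]
          refine ⟨Finset.mem_insert_of_mem (Finset.mem_filter.1 hi).1, fun hc => ?_⟩
          rw [← hag.ss] at hc
          exact hd hc hi
        · rw [Finset.mem_sdiff]
          rintro ⟨_, h⟩
          exact h (Finset.mem_union_right _ hi)
      rcases ih _ hlt m' (x :: xs) hm' hv2 le_rfl with h | ⟨l, y, tail, hl, m'', h1, h2, h3, h4, h5⟩
      · exact Or.inl h
      · rcases l with _ | ⟨z, l⟩
        · simp only [List.nil_append, List.cons.injEq] at hl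
          obtain ⟨rfl, rfl⟩ := hl
          exact ihw _ (lt_of_lt_of_le h5 hw) m'' h1 (hag.trans h4) le_rfl
        · simp only [List.cons_append, List.cons.injEq] at hl
          obtain ⟨rfl, hl⟩ := hl
          right
          exact Imp.of_agree hag ⟨l, y, tail, hl, m'', h1, h2, h3, h4, h5⟩
  exact inner _ m hm (agree_refl m xs) le_rfl

end State

/-- Haxell's theorem. -/
theorem haxell {E : V → V → Prop} (cls : V → I) (hsymm : ∀ x y, E x y → E y x)
    (hirr : ∀ x, ¬ E x x) (T : Finset I)
    (H : ∀ R ⊆ T, R.Nonempty → ∀ P : Finset (V × V), (∀ p ∈ P, E p.1 p.2) →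
      P.card < R.card → ∃ x, cls x ∈ R ∧ ∀ p ∈ P, ¬ E p.1 x ∧ ¬ E p.2 x) [Nonempty V] :
    ∃ m : I → V, (∀ i ∈ T, cls (m i) = i) ∧ ∀ i ∈ T, ∀ j ∈ T, ¬ E (m i) (m j) := by
  classical
  induction T using Finset.induction_on with
  | empty => exact ⟨fun _ => Classical.arbitrary V, by simp, by simp⟩
  | insert a S ha ih =>
    obtain ⟨m, hm⟩ := ih fun R hR => H R (hR.trans (Finset.subset_insert _ _))
    rcases main_ind (cls := cls) hsymm hirr ha H _ m [] hm trivial le_rfl with h | h
    · exact h
    · obtain ⟨l, x, tail, hl, _⟩ := h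
      simp at hl

end Pool.Agent.Helper48.HX
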