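import Pool.Agent.Helper48.HX.Upper

/-!
Eight cliques whose lists have `d + 1` colours, with colour degree `d` and without a colouring.
-/

namespace Pool.Agent.Helper48.HX

open Finset

/-- The index of a block. -/
abbrev Blk := Bool × Bool × Bool

/-- The number of vertices of bottom type. -/
def xx (n : ℕ) (b : Blk) : ℕ := if b.2.2 then (n + 1) / 2 else n / 2

/-- The number of vertices of middle type. -/
def yy (n : ℕ) (b : Blk) : ℕ :=
  if b.2.2 then n / 3 else if b.2.1 then (n + 1) / 3 else (n + 2) / 3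

/-- The type of a vertex. -/
def ty (n : ℕ) (v : Blk × Fin n) : ℕ :=
  if v.2.1 < xx n v.1 then 0 else if v.2.1 < xx n v.1 + yy n v.1 then 1 else 2

/-- The variable of a vertex. -/
def var (n : ℕ) (v : Blk × Fin n) : List Bool :=
  if ty n v = 0 then [v.1.1, v.1.2.1] else if ty n v = 1 then [v.1.1] else []

/-- The sign of a vertex. -/
def sign (n : ℕ) (v : Blk × Fin n) : Bool :=
  if ty n v = 0 then v.1.2.2 else if ty n v = 1 then v.1.2.1 else v.1.1

/-- The graph. -/
def gr (n : ℕ) : SimpleGraph (Blk × Fin n) where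
  Adj v w := v ≠ w ∧ (v.1 = w.1 ∨ (var n v = var n w ∧ sign n v ≠ sign n w))
  symm := ⟨fun _ _ h => ⟨h.1.symm, h.2.imp Eq.symm fun h => ⟨h.1.symm, h.2.symm⟩⟩⟩
  loopless := ⟨fun _ h => h.1 rfl⟩

/-- The colours: `d` private colours for every block, and the variables. -/
abbrev Col (d : ℕ) := (Blk × Fin d) ⊕ List Bool

/-- The lists. -/
def lst (d n : ℕ) (v : Blk × Fin n) : Finset (Col d) :=
  insert (Sum.inr (var n v)) ((Finset.univ : Finset (Fin d)).map
    ⟨fun h => (Sum.inl (v.1, h) : Col d), fun a b hab => by simpa using hab⟩)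

theorem mem_lst {d n : ℕ} {v : Blk × Fin n} {α : Col d} :
    α ∈ lst d n v ↔ α = Sum.inr (var n v) ∨ ∃ h, α = Sum.inl (v.1, h) := by
  simp [lst, eq_comm]

theorem card_lst (d n : ℕ) (v : Blk × Fin n) : (lst d n v).card = d + 1 := by
  rw [lst, Finset.card_insert_of_notMem, Finset.card_map, Finset.card_univ, Fintype.card_fin]
  simp

theorem ty_cases (n : ℕ) (v : Blk × Fin n) : ty n v = 0 ∨ ty n v = 1 ∨ ty n v = 2 := by
  unfold ty
  split_ifs <;> simp

theorem ty_of_var {n : ℕ} {v w : Blk × Fin n} (h : var n v = var n w) : ty n v = ty n w := by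
  have h1 := congrArg List.length h
  unfold var at h1
  rcases ty_cases n v with h2 | h2 | h2 <;> rcases ty_cases n w with h3 | h3 | h3 <;>
    simp [h2, h3] at h1 ⊢

/-- The number of vertices of each type in a block. -/
theorem card_ty (n t : ℕ) (b : Blk) :
    ((Finset.univ : Finset (Fin n)).filter fun i => ty n (b, i) = t).card ≤
      if t = 0 then xx n b else if t = 1 then yy n b else n - (xx n b + yy n b) := by
  have key : ∀ (s m : ℕ), (∀ i : Fin n, ty n (b, i) = t → s ≤ i.1 ∧ i.1 < s + m) →
      ((Finset.univ : Finset (Fin n)).filter fun i => ty n (b, i) = t).card ≤ m := by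
    intro s m h
    calc ((Finset.univ : Finset (Fin n)).filter fun i => ty n (b, i) = t).card
        ≤ (Finset.range m).card := by
          apply Finset.card_le_card_of_injOn (fun i => i.1 - s)
          · intro i hi
            have := h i (Finset.mem_filter.1 hi).2
            simp only [Finset.coe_range, Set.mem_Iio]
            omega
          · intro i hi i' hi' hii
            have h1 := h i (Finset.mem_filter.1 hi).2
            have h2 := h i' (Finset.mem_filter.1 hi').2
            simp only at hii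
            apply Fin.ext
            omega
      _ = m := Finset.card_range m
  split_ifs with h0 h1
  · apply key 0
    intro i hi
    subst h0
    unfold ty at hi
    simp only at hi
    split_ifs at hi with h2 h3 <;> omega
  · apply key (xx n b)
    intro i hi
    subst h1
    unfold ty at hi
    simp only at hi
    split_ifs at hi with h2 h3 <;> omega
  · apply key (xx n b + yy n b)
    intro i hi
    have hi2 := i.2
    unfold ty at hi
    simp only at hi
    split_ifs at hi with h2 h3 <;> omega

/-- The blocks that matter for the degree. -/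
def nb (t : ℕ) (b : Blk) : Finset Blk :=
  if t = 0 then {(b.1, b.2.1, b.2.2), (b.1, b.2.1, !b.2.2)}
  else if t = 1 then {(b.1, b.2.1, b.2.2), (b.1, !b.2.1, false), (b.1, !b.2.1, true)}
  else {(b.1, b.2.1, b.2.2), (!b.1, false, false), (!b.1, false, true), (!b.1, true, false),
    (!b.1, true, true)}

theorem nbr_mem {n : ℕ} {v w : Blk × Fin n} (h : (gr n).Adj v w) (hv : var n v = var n w) :
    w.1 ∈ nb (ty n v) v.1 := by
  have ht := ty_of_var hv
  obtain ⟨_, h | ⟨_, hs⟩⟩ := h
  · unfold nb
    split_ifs <;> simp [← h]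
  · obtain ⟨⟨b1, b2, b3⟩, i⟩ := v
    obtain ⟨⟨c1, c2, c3⟩, i'⟩ := w
    unfold sign at hs
    unfold var at hv
    rw [← ht] at hs hv
    unfold nb
    rcases ty_cases n ((b1, b2, b3), i) with h0 | h0 | h0
    · rw [h0] at hs hv ⊢
      simp only [if_true, List.cons.injEq, and_true] at hs hv ⊢
      obtain ⟨rfl, rfl⟩ := hv
      cases b3 <;> cases c3 <;> simp at hs ⊢
    · rw [h0] at hs hv ⊢
      simp only [one_ne_zero, if_false, if_true, List.cons.injEq, and_true] at hs hv ⊢
      subst hv
      cases b2 <;> cases c2 <;> cases c3 <;> simp at hs ⊢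
    · rw [h0] at hs hv ⊢
      simp only [OfNat.ofNat_ne_zero, OfNat.ofNat_ne_one, if_false] at hs ⊢
      cases b1 <;> cases c1 <;> cases c2 <;> cases c3 <;> simp at hs ⊢

theorem sum_nb {n : ℕ} (hn : 3 ≤ n) {t : ℕ} (ht : t = 0 ∨ t = 1 ∨ t = 2) (b : Blk) :
    ∑ b' ∈ nb t b, (if t = 0 then xx n b' else if t = 1 then yy n b' else
      n - (xx n b' + yy n b')) ≤ n := by
  obtain ⟨b1, b2, b3⟩ := b
  rcases ht with rfl | rfl | rfl <;> rcases b1 with _ | _ <;> rcases b2 with _ | _ <;>
    rcases b3 with _ | _ <;> simp [nb, xx, yy] <;> omega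

/-- The colour degree. -/
theorem degree_lst {d n : ℕ} (hn : n = d + 1) (hd : 2 ≤ d) :
    ColourDegreeLE (gr n) (lst d n) d := by
  classical
  intro v α hα
  rcases mem_lst.1 hα with rfl | ⟨h, rfl⟩
  · -- a variable
    set A : Finset (Blk × Fin n) := (nb (ty n v) v.1).biUnion fun b =>
      ((Finset.univ : Finset (Fin n)).filter fun i => ty n (b, i) = ty n v).map
        ⟨fun i => (b, i), fun i j hij => by simpa using hij⟩ with hA
    have hAmem : ∀ w : Blk × Fin n, w.1 ∈ nb (ty n v) v.1 → ty n w = ty n v → w ∈ A := by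
      intro w h1 h2
      rw [hA, Finset.mem_biUnion]
      refine ⟨w.1, h1, ?_⟩
      rw [Finset.mem_map]
      exact ⟨w.2, Finset.mem_filter.2 ⟨Finset.mem_univ _, h2⟩, rfl⟩
    have hAcard : A.card ≤ n := by
      refine Finset.card_biUnion_le.trans ?_
      refine le_trans (Finset.sum_le_sum fun b _ => ?_) (sum_nb (by omega) (ty_cases n v) v.1)
      rw [Finset.card_map]
      exact card_ty n _ b
    have hvA : v ∈ A := by
      apply hAmem v _ rfl
      unfold nb
      split_ifs <;> simp
    have hsub : {w | (gr n).Adj v w ∧ (Sum.inr (var n v) : Col d) ∈ lst d n w} ⊆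
        ((A.erase v : Finset (Blk × Fin n)) : Set (Blk × Fin n)) := by
      rintro w ⟨h1, h2⟩
      have h3 : var n v = var n w := by
        rcases mem_lst.1 h2 with h2 | ⟨h, h2⟩
        · exact Sum.inr.inj h2
        · exact absurd h2 (by simp)
      rw [Finset.mem_coe, Finset.mem_erase]
      exact ⟨fun h => h1.1 h.symm, hAmem w (nbr_mem h1 h3) (ty_of_var h3).symm⟩
    refine (Set.ncard_le_ncard hsub (Set.toFinite _)).trans ?_
    rw [Set.ncard_coe_finset, Finset.card_erase_of_mem hvA]
    omega
  · -- a private colour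
    have hsub : {w | (gr n).Adj v w ∧ (Sum.inl (v.1, h) : Col d) ∈ lst d n w} ⊆
        ((((Finset.univ : Finset (Fin n)).erase v.2).map
          ⟨fun i => (v.1, i), fun i j hij => by simpa using hij⟩ : Finset (Blk × Fin n)) :
            Set (Blk × Fin n)) := by
      rintro w ⟨h1, h2⟩
      have h3 : v.1 = w.1 := by
        rcases mem_lst.1 h2 with h2 | ⟨h', h2⟩
        · exact absurd h2 (by simp)
        · have := Sum.inl.inj h2
          exact (Prod.ext_iff.1 this).1
      rw [Finset.mem_coe, Finset.mem_map]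
      refine ⟨w.2, ?_, ?_⟩
      · rw [Finset.mem_erase]
        refine ⟨fun h => h1.1 (Prod.ext h3 h.symm), Finset.mem_univ _⟩
      · exact Prod.ext h3 rfl
    refine (Set.ncard_le_ncard hsub (Set.toFinite _)).trans ?_
    rw [Set.ncard_coe_finset, Finset.card_map, Finset.card_erase_of_mem (Finset.mem_univ _),
      Finset.card_univ, Fintype.card_fin]
    omega

/-- The private colours are not wide. -/
theorem not_wide {d n : ℕ} (hn : n = d + 1) (v : Blk × Fin n) (h : Fin d) :
    ¬ Wide (gr n) (lst d n) d v (Sum.inl (v.1, h)) := by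
  rintro ⟨x, y, _, _, _, _, hcard⟩
  have hsub : {w | (Sum.inl (v.1, h) : Col d) ∈ lst d n w ∧ ((gr n).Adj x w ∨ (gr n).Adj y w)} ⊆
      (((Finset.univ : Finset (Fin n)).map
        ⟨fun i => (v.1, i), fun i j hij => by simpa using hij⟩ : Finset (Blk × Fin n)) :
          Set (Blk × Fin n)) := by
    rintro w ⟨h2, _⟩
    have h3 : v.1 = w.1 := by
      rcases mem_lst.1 h2 with h2 | ⟨h', h2⟩
      · exact absurd h2 (by simp)
      · have := Sum.inl.inj h2
        exact (Prod.ext_iff.1 this).1
    rw [Finset.mem_coe, Finset.mem_map]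
    exact ⟨w.2, Finset.mem_univ _, Prod.ext h3 rfl⟩
  have h1 := Set.ncard_le_ncard hsub (Set.toFinite _)
  rw [Set.ncard_coe_finset, Finset.card_map, Finset.card_univ, Fintype.card_fin] at h1
  omega

/-- There is no colouring. -/
theorem not_colourable {d n : ℕ} (hn : n = d + 1) : ¬ ListColourable (gr n) (lst d n) := by
  rintro ⟨c, hc, hadj⟩
  -- in each block some vertex uses its variable
  have hblk : ∀ b : Blk, ∃ i : Fin n, c (b, i) = Sum.inr (var n (b, i)) := by
    intro b
    by_contra hcon
    push Not at hcon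
    have h1 : ∀ i : Fin n, ∃ h : Fin d, c (b, i) = Sum.inl (b, h) := fun i => by
      rcases mem_lst.1 (hc (b, i)) with h | h
      · exact absurd h (hcon i)
      · exact h
    choose g hg using h1
    have hinj : Function.Injective g := by
      intro i j hij
      by_contra hne
      refine hadj (b, i) (b, j) ⟨fun h => hne (congrArg Prod.snd h), Or.inl rfl⟩ ?_
      rw [hg, hg, hij]
    have := Fintype.card_le_of_injective g hinj
    simp [hn] at this
  -- for each variable one sign is not used
  have hvar : ∀ p : List Bool, ∃ s : Bool, ∀ v : Blk × Fin n, var n v = p → sign n v = s →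
      c v ≠ Sum.inr p := by
    intro p
    by_contra hcon
    push Not at hcon
    obtain ⟨v, hv1, hv2, hv3⟩ := hcon true
    obtain ⟨w, hw1, hw2, hw3⟩ := hcon false
    refine hadj v w ⟨fun h => ?_, Or.inr ⟨hv1.trans hw1.symm, ?_⟩⟩ (hv3.trans hw3.symm)
    · rw [h, hw2] at hv2
      exact absurd hv2 (by simp)
    · rw [hv2, hw2]
      simp
  obtain ⟨b1, h1⟩ := hvar []
  obtain ⟨b2, h2⟩ := hvar [b1]
  obtain ⟨b3, h3⟩ := hvar [b1, b2]
  obtain ⟨i, hi⟩ := hblk (b1, b2, b3)
  rcases ty_cases n ((b1, b2, b3), i) with ht | ht | ht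
  · have hv : var n ((b1, b2, b3), i) = [b1, b2] := by
      unfold var
      rw [if_pos ht]
    have hs : sign n ((b1, b2, b3), i) = b3 := by
      unfold sign
      rw [if_pos ht]
    rw [hv] at hi
    exact h3 _ hv hs hi
  · have hv : var n ((b1, b2, b3), i) = [b1] := by
      unfold var
      rw [if_neg (by omega), if_pos ht]
    have hs : sign n ((b1, b2, b3), i) = b2 := by
      unfold sign
      rw [if_neg (by omega), if_pos ht]
    rw [hv] at hi
    exact h2 _ hv hs hi
  · have hv : var n ((b1, b2, b3), i) = [] := by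
      unfold var
      rw [if_neg (by omega), if_neg (by omega)]
    have hs : sign n ((b1, b2, b3), i) = b1 := by
      unfold sign
      rw [if_neg (by omega), if_neg (by omega)]
    rw [hv] at hi
    exact h1 _ hv hs hi

theorem not_sufficesJ {d j : ℕ} (hd : 2 ≤ d) (hj : 1 ≤ j) : ¬ SufficesJ j d (d + 1) := by
  intro h
  apply not_colourable (d := d) rfl
  refine h _ _ (gr (d + 1)) (lst d (d + 1)) (degree_lst rfl hd) (fun v => (card_lst d _ v).ge) ?_
  intro v
  have hsub : {α | α ∈ lst d (d + 1) v ∧ Wide (gr (d + 1)) (lst d (d + 1)) d v α} ⊆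
      {Sum.inr (var (d + 1) v)} := by
    rintro α ⟨h1, h2⟩
    rcases mem_lst.1 h1 with rfl | ⟨h, rfl⟩
    · rfl
    · exact absurd h2 (not_wide rfl v h)
  refine (Set.ncard_le_ncard hsub (Set.toFinite _)).trans ?_
  rw [Set.ncard_singleton]
  exact hj

end Pool.Agent.Helper48.HX
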