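import Pool.Agent.Helper48.HX.Haxell

/-!
List colourings from Haxell's theorem with weights, and the case in which every vertex has few
colours whose component is not a clique.
-/

namespace Pool.Agent.Helper48.HX

open Finset

/-- the maximum colour degree of `(G, L)` is at most `d`: for every vertex `v` and every colour
`α` in its list, at most `d` neighbours `w` of `v` have `α` in their list -/
def ColourDegreeLE {V C : Type} (G : SimpleGraph V) (L : V → Finset C) (d : ℕ) : Prop :=
  ∀ v, ∀ α ∈ L v, {w | G.Adj v w ∧ α ∈ L w}.ncard ≤ d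

/-- `G` has a proper colouring from the lists -/
def ListColourable {V C : Type} (G : SimpleGraph V) (L : V → Finset C) : Prop :=
  ∃ c : V → C, (∀ v, c v ∈ L v) ∧ ∀ v w, G.Adj v w → c v ≠ c w

/-- lists of size at least `k` suffice whenever the maximum colour degree is at most `d` -/
def Suffices (d k : ℕ) : Prop :=
  ∀ (V C : Type) [Fintype V] (G : SimpleGraph V) (L : V → Finset C),
    ColourDegreeLE G L d → (∀ v, k ≤ (L v).card) → ListColourable G L

/-- the least sufficient list size -/
noncomputable def f (d : ℕ) : ℕ := sInf {k | Suffices d k}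

/-- the colour `α` is wide at `v`: some edge `xy` of `G` whose ends have `α` in their lists, one
end being adjacent to `v`, has at least `d + 2` vertices with `α` in their lists that are adjacent
to `x` or to `y` -/
def Wide {V C : Type} (G : SimpleGraph V) (L : V → Finset C) (d : ℕ) (v : V) (α : C) : Prop :=
  ∃ x y, G.Adj x y ∧ α ∈ L x ∧ α ∈ L y ∧ (G.Adj x v ∨ G.Adj y v) ∧
    d + 2 ≤ {w | α ∈ L w ∧ (G.Adj x w ∨ G.Adj y w)}.ncard

/-- lists of size at least `k` suffice whenever the maximum colour degree is at most `d` and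
every vertex has at most `j` colours in its list which are wide at this vertex -/
def SufficesJ (j d k : ℕ) : Prop :=
  ∀ (V C : Type) [Fintype V] (G : SimpleGraph V) (L : V → Finset C),
    ColourDegreeLE G L d → (∀ v, k ≤ (L v).card) →
    (∀ v, {α | α ∈ L v ∧ Wide G L d v α}.ncard ≤ j) → ListColourable G L

/-- the least sufficient list size when every vertex has at most `j` wide colours -/
noncomputable def fJ (j d : ℕ) : ℕ := sInf {k | SufficesJ j d k}

/-- Weighted form of Haxell's theorem for list colourings. -/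
theorem weighted {V C : Type} [Fintype V] (G : SimpleGraph V) (L : V → Finset C) (D : V → C → ℕ)
    (hD : ∀ α x y v, G.Adj x y → α ∈ L x → α ∈ L y → α ∈ L v → (G.Adj x v ∨ G.Adj y v) →
      {w | α ∈ L w ∧ (G.Adj x w ∨ G.Adj y w)}.ncard ≤ D v α)
    (hsum : ∀ v, (1 : ℚ) ≤ ∑ α ∈ L v, 1 / (D v α : ℚ)) : ListColourable G L := by
  classical
  rcases isEmpty_or_nonempty V with hV | ⟨⟨v0⟩⟩
  · exact ⟨fun v => hV.elim v, fun v => hV.elim v, fun v => hV.elim v⟩
  have hne : ∀ v, (L v).Nonempty := fun v => by
    by_contra h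
    rw [Finset.not_nonempty_iff_eq_empty] at h
    have := hsum v
    rw [h, Finset.sum_empty] at this
    norm_num at this
  let E : (Σ v : V, L v) → (Σ v : V, L v) → Prop := fun s t => G.Adj s.1 t.1 ∧ s.2.1 = t.2.1
  have : Nonempty (Σ v : V, L v) := ⟨⟨v0, (hne v0).choose, (hne v0).choose_spec⟩⟩
  obtain ⟨m, hm1, hm2⟩ := haxell (E := E) (fun s : (Σ v : V, L v) => s.1)
    (fun s t h => ⟨h.1.symm, h.2.symm⟩) (fun s h => G.loopless.irrefl _ h.1) Finset.univ (by
    intro R _ hR P hP hcard
    by_contra hcon
    push Not at hcon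
    -- every slot is dominated
    have h1 : (R.card : ℚ) ≤ ∑ v ∈ R, ∑ α ∈ L v, 1 / (D v α : ℚ) := by
      rw [Finset.card_eq_sum_ones, Nat.cast_sum]
      exact Finset.sum_le_sum fun v _ => by simpa using hsum v
    have h2 : ∑ v ∈ R, ∑ α ∈ L v, 1 / (D v α : ℚ) =
        ∑ s ∈ (Finset.univ : Finset (Σ v : V, L v)) with s.1 ∈ R, 1 / (D s.1 s.2.1 : ℚ) := by
      have h3 : ((Finset.univ : Finset (Σ v : V, L v)).filter fun s => s.1 ∈ R) =
          R.sigma fun v => (Finset.univ : Finset (L v)) := by
        ext s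
        simp
      rw [h3, Finset.sum_sigma]
      refine Finset.sum_congr rfl fun v _ => ?_
      exact (Finset.sum_coe_sort (L v) (fun α => 1 / (D v α : ℚ))).symm
    have h4 : ∑ s ∈ (Finset.univ : Finset (Σ v : V, L v)) with s.1 ∈ R, 1 / (D s.1 s.2.1 : ℚ) ≤
        ∑ p ∈ P, ∑ s ∈ (Finset.univ : Finset (Σ v : V, L v)) with (E p.1 s ∨ E p.2 s),
          1 / (D s.1 s.2.1 : ℚ) := by
      have h5 : ∀ s ∈ (Finset.univ : Finset (Σ v : V, L v)).filter (fun s => s.1 ∈ R),
          1 / (D s.1 s.2.1 : ℚ) ≤ ∑ p ∈ P with (E p.1 s ∨ E p.2 s), 1 / (D s.1 s.2.1 : ℚ) := by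
        intro s hs
        rw [Finset.mem_filter] at hs
        obtain ⟨p, hp, hps⟩ := hcon s hs.2
        have hp' : p ∈ P.filter (fun p => E p.1 s ∨ E p.2 s) := by
          refine Finset.mem_filter.2 ⟨hp, ?_⟩
          by_cases h : E p.1 s
          · exact Or.inl h
          · exact Or.inr (hps h)
        exact Finset.single_le_sum (f := fun _ => 1 / (D s.1 s.2.1 : ℚ))
          (fun _ _ => by positivity) hp'
      refine (Finset.sum_le_sum h5).trans ?_
      refine (Finset.sum_le_sum_of_subset_of_nonneg (Finset.filter_subset _ _)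
        fun s _ _ => Finset.sum_nonneg fun _ _ => by positivity).trans ?_
      apply le_of_eq
      apply Finset.sum_comm'
      intro s p
      simp only [Finset.mem_univ, Finset.mem_filter, true_and]
      tauto
    have h6 : ∀ p ∈ P, ∑ s ∈ (Finset.univ : Finset (Σ v : V, L v)) with (E p.1 s ∨ E p.2 s),
        1 / (D s.1 s.2.1 : ℚ) ≤ 1 := by
      intro p hp
      obtain ⟨hadj, hcol⟩ := hP p hp
      set α : C := p.1.2.1 with hα
      set N : Set V := {w | α ∈ L w ∧ (G.Adj p.1.1 w ∨ G.Adj p.2.1 w)} with hN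
      set F := (Finset.univ : Finset (Σ v : V, L v)).filter fun s => (E p.1 s ∨ E p.2 s) with hF
      have hcF : ∀ s ∈ F, s.2.1 = α := by
        intro s hs
        rcases (Finset.mem_filter.1 hs).2 with h | h
        · exact h.2.symm
        · exact (h.2.symm.trans hcol.symm)
      have hNF : ∀ s ∈ F, s.1 ∈ N := by
        intro s hs
        refine ⟨?_, ?_⟩
        · rw [← hcF s hs]
          exact s.2.2
        · rcases (Finset.mem_filter.1 hs).2 with h | h
          · exact Or.inl h.1
          · exact Or.inr h.1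
      have hcard2 : F.card ≤ N.ncard := by
        rw [← Set.ncard_coe_finset]
        refine Set.ncard_le_ncard_of_injOn (fun s => s.1) (fun s hs => hNF s hs) ?_
          (Set.toFinite _)
        intro s hs t ht hst
        obtain ⟨s1, s2, hs2⟩ := s
        obtain ⟨t1, t2, ht2⟩ := t
        simp only at hst
        subst hst
        have h1 := hcF _ hs
        have h2 := hcF _ ht
        simp only at h1 h2
        subst h1
        subst h2
        rfl
      have hDN : ∀ s ∈ F, (N.ncard : ℚ) ≤ D s.1 s.2.1 := by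
        intro s hs
        rw [hcF s hs]
        have h1 := hD α p.1.1 p.2.1 s.1 hadj p.1.2.2 (by rw [hcol]; exact p.2.2.2)
          (hNF s hs).1 (hNF s hs).2
        exact_mod_cast h1
      rcases F.eq_empty_or_nonempty with h0 | ⟨s0, hs0⟩
      · rw [h0, Finset.sum_empty]
        norm_num
      · have hNpos : (0 : ℚ) < N.ncard := by
          have : 0 < N.ncard := (Set.ncard_pos (Set.toFinite _)).2 ⟨s0.1, hNF s0 hs0⟩
          exact_mod_cast this
        calc ∑ s ∈ F, 1 / (D s.1 s.2.1 : ℚ) ≤ ∑ s ∈ F, 1 / (N.ncard : ℚ) :=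
              Finset.sum_le_sum fun s hs => one_div_le_one_div_of_le hNpos (hDN s hs)
          _ = F.card / (N.ncard : ℚ) := by
              rw [Finset.sum_const, nsmul_eq_mul, mul_one_div]
          _ ≤ 1 := by
              rw [div_le_one hNpos]
              exact_mod_cast hcard2
    have h7 : (R.card : ℚ) ≤ P.card := by
      rw [h2] at h1
      refine (h1.trans h4).trans ((Finset.sum_le_sum h6).trans ?_)
      simp
    exact absurd (by exact_mod_cast h7 : R.card ≤ P.card) (by omega))
  refine ⟨fun v => (m v).2.1, fun v => ?_, fun v w hvw h => ?_⟩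
  · have h1 := (m v).2.2
    have h2 := hm1 v (Finset.mem_univ v)
    have h3 : L (m v).1 = L v := by rw [h2]
    rw [← h3]
    exact h1
  · apply hm2 v (Finset.mem_univ v) w (Finset.mem_univ w)
    refine ⟨?_, h⟩
    rw [hm1 v (Finset.mem_univ v), hm1 w (Finset.mem_univ w)]
    exact hvw

/-- The upper bound. -/
theorem sufficesJ_of_le {j d k : ℕ} (hd : 1 ≤ d) (h : 2 * d * (d + 1) + j * (d - 1) ≤ 2 * d * k) :
    SufficesJ j d k := by
  classical
  intro V C _ G L hdeg hk hj
  refine weighted G L (fun v α => if ¬ Wide G L d v α then d + 1 else 2 * d) ?_ ?_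
  · intro α x y v hxy hx hy hv hxyv
    split_ifs with hc
    · have hsub : {w | α ∈ L w ∧ (G.Adj x w ∨ G.Adj y w)} ⊆
          {w | G.Adj x w ∧ α ∈ L w} ∪ {w | G.Adj y w ∧ α ∈ L w} := by
        rintro w ⟨hw, h1 | h1⟩
        · exact Or.inl ⟨h1, hw⟩
        · exact Or.inr ⟨h1, hw⟩
      refine (Set.ncard_le_ncard hsub (Set.toFinite _)).trans ?_
      refine (Set.ncard_union_le _ _).trans ?_
      have h1 := hdeg x α hx
      have h2 := hdeg y α hy
      omega
    · by_contra hcon
      exact hc ⟨x, y, hxy, hx, hy, hxyv, by omega⟩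
  · intro v
    set A := (L v).filter fun α => ¬ Wide G L d v α with hA
    set B := (L v).filter fun α => ¬ ¬ Wide G L d v α with hB
    have hAB : A.card + B.card = (L v).card := Finset.card_filter_add_card_filter_not _
    have hBj : B.card ≤ j := by
      refine le_trans ?_ (hj v)
      rw [← Set.ncard_coe_finset]
      apply le_of_eq
      congr 1
      ext α
      simp [hB]
    have hsum : ∑ α ∈ L v, 1 / (((if ¬ Wide G L d v α then d + 1 else 2 * d : ℕ)) : ℚ) =
        A.card * (1 / ((d : ℚ) + 1)) + B.card * (1 / (2 * (d : ℚ))) := by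
      rw [← Finset.sum_filter_add_sum_filter_not (L v) (fun α => ¬ Wide G L d v α)]
      congr 1
      · rw [Finset.sum_congr rfl (g := fun _ => 1 / ((d : ℚ) + 1)), Finset.sum_const, nsmul_eq_mul]
        intro α hα
        rw [if_pos (Finset.mem_filter.1 hα).2]
        push_cast
        rfl
      · rw [Finset.sum_congr rfl (g := fun _ => 1 / (2 * (d : ℚ))), Finset.sum_const, nsmul_eq_mul]
        intro α hα
        rw [if_neg (Finset.mem_filter.1 hα).2]
        push_cast
        rfl
    have hd' : (1 : ℚ) ≤ d := by exact_mod_cast hd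
    have hmain : 2 * (d : ℚ) * (d + 1) + B.card * (d - 1) ≤ 2 * d * (A.card + B.card) := by
      have h1 : (2 * d * (d + 1) + j * (d - 1) : ℚ) ≤ 2 * d * k := by
        have h2 : ((2 * d * (d + 1) + j * (d - 1) : ℕ) : ℚ) ≤ ((2 * d * k : ℕ) : ℚ) := by
          exact_mod_cast h
        push_cast [Nat.cast_sub hd] at h2
        exact h2
      have h3 : (k : ℚ) ≤ A.card + B.card := by
        have h4 : k ≤ A.card + B.card := by
          rw [hAB]
          exact hk v
        exact_mod_cast h4
      have h5 : (B.card : ℚ) ≤ j := by exact_mod_cast hBj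
      nlinarith
    rw [hsum]
    have e : (A.card : ℚ) * (1 / ((d : ℚ) + 1)) + B.card * (1 / (2 * (d : ℚ))) =
        (2 * d * (A.card + B.card) - B.card * (d - 1)) / (2 * d * (d + 1)) := by
      field_simp
      ring
    rw [e, le_div_iff₀ (by positivity)]
    linarith

end Pool.Agent.Helper48.HX
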